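import Mathlib

open MeasureTheory Set Filter Topology Complex

namespace Pool.Agent.H.MP_c984ee_an

lemma ne0 {t : ℝ} (ht : t ≠ 0) (s : ℝ) : (s : ℂ) + t * I ≠ 0 := fun h => ht (by
  simpa using congrArg Complex.im h)

lemma dom {ε : ℝ} (hε : 0 < ε) : Integrable fun s : ℝ => 2 / ε ^ 2 * (1 + (s / ε) ^ 2)⁻¹ :=
  (integrable_inv_one_add_sq.comp_div hε.ne').const_mul _

lemma bd {ε s t : ℝ} (hε : 0 < ε) (h : ε ≤ ‖(s : ℂ) + t * I‖) :
    ‖1 / ((s : ℂ) + t * I) ^ 2‖ ≤ 2 / ε ^ 2 * (1 + (s / ε) ^ 2)⁻¹ := by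
  have e : ‖(s : ℂ) + t * I‖ ^ 2 = s ^ 2 + t ^ 2 := by rw [Complex.sq_norm, normSq_add_mul_I]
  have h2 := pow_le_pow_left₀ hε.le h 2
  rw [norm_div, norm_one, norm_pow, show 2 / ε ^ 2 * (1 + (s / ε) ^ 2)⁻¹ = 2 / (ε ^ 2 + s ^ 2) by
    field_simp, div_le_div_iff₀ (lt_of_lt_of_le (by positivity) h2) (by positivity)]
  nlinarith [sq_nonneg t]

lemma intg {t : ℝ} (ht : t ≠ 0) : Integrable fun s : ℝ => 1 / ((s : ℂ) + t * I) ^ 2 :=
  (dom (abs_pos.2 ht)).mono' (Measurable.aestronglyMeasurable (by fun_prop)) (.of_forall fun s => bd (abs_pos.2 ht) (by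
    simpa using abs_im_le_norm ((s : ℂ) + t * I)))

lemma half {t : ℝ} (ht : t ≠ 0) (a : ℝ) :
    ∫ s in Ioi a, 1 / ((s : ℂ) + t * I) ^ 2 = 1 / ((a : ℂ) + t * I) := by
  have h := integral_Ioi_of_hasDerivAt_of_tendsto' (f := fun s : ℝ => -((s : ℂ) + t * I)⁻¹)
    (a := a) (m := 0) (fun s _ => (((ofRealCLM.hasDerivAt (x := s)).add_const (t * I)).inv
      (ne0 ht s)).neg.congr_deriv (by simp [neg_div])) (intg ht).integrableOn (by
      rw [← neg_zero]
      refine (tendsto_inv₀_cobounded.comp (tendsto_norm_atTop_iff_cobounded.1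
        (tendsto_atTop_mono (fun s => ?_) tendsto_id))).neg
      simpa using re_le_norm ((s : ℂ) + t * I))
  simpa using h

lemma inner {ε t : ℝ} (hε : 0 < ε) (ht : t ≠ 0) :
    ∫ s in {s : ℝ | ε < ‖(s : ℂ) + t * I‖}, (1 : ℂ) / ((s : ℂ) + t * I) ^ 2 =
      ((2 * √(ε ^ 2 - t ^ 2) / ε ^ 2 : ℝ) : ℂ) := by
  set a := √(ε ^ 2 - t ^ 2) with ha
  have a0 : 0 ≤ a := Real.sqrt_nonneg _
  have e : {s : ℝ | ε < ‖(s : ℂ) + t * I‖} =ᵐ[volume] (Iic (-a) ∪ Ioi a : Set ℝ) := by
    filter_upwards [compl_mem_ae_iff.2 (measure_singleton (-a)),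
      compl_mem_ae_iff.2 (measure_singleton a)] with s h1 h2
    have e : ‖(s : ℂ) + t * I‖ ^ 2 = s ^ 2 + t ^ 2 := by rw [Complex.sq_norm, normSq_add_mul_I]
    have k : ε < ‖(s : ℂ) + t * I‖ ↔ ε ^ 2 - t ^ 2 < s ^ 2 := by
      rw [← pow_lt_pow_iff_left₀ hε.le (norm_nonneg _) two_ne_zero, e, sub_lt_iff_lt_add]
    refine propext (k.trans ?_)
    change _ ↔ s ≤ -a ∨ a < s
    rw [mem_compl_singleton_iff] at h1 h2
    rcases le_total (ε ^ 2 - t ^ 2) 0 with h | h
    · rw [Real.sqrt_eq_zero_of_nonpos h] at ha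
      rw [ha] at h2 ⊢
      have := sq_pos_of_ne_zero h2
      exact ⟨fun _ => by simpa using le_or_gt s 0, fun _ => by linarith⟩
    · rw [← Real.sq_sqrt h, ← ha, sq_lt_sq, abs_of_nonneg a0, lt_abs, or_comm]
      exact or_congr ⟨fun h => by linarith, fun h => by
        linarith [lt_of_le_of_ne h h1]⟩ Iff.rfl
  rw [setIntegral_congr_set e, setIntegral_union (by
    rw [Set.disjoint_left]
    intro s h1 h2
    linarith [mem_Iic.1 h1, mem_Ioi.1 h2]) measurableSet_Ioi (intg ht).integrableOn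
    (intg ht).integrableOn, half ht, ← integral_comp_neg_Ioi]
  have e2 : ∀ s : ℝ, 1 / (((-s : ℝ) : ℂ) + t * I) ^ 2 = 1 / ((s : ℂ) + (-t : ℝ) * I) ^ 2 :=
    fun s => by push_cast; ring
  simp only [e2]
  rw [half (neg_ne_zero.2 ht), div_add_div _ _ (ne0 (neg_ne_zero.2 ht) a) (ne0 ht a)]
  rcases le_total (ε ^ 2 - t ^ 2) 0 with h | h
  · rw [ha, Real.sqrt_eq_zero_of_nonpos h]
    simp
  · have : (ε : ℂ) ^ 2 = a ^ 2 + t ^ 2 := by
      rw [ha]; norm_cast; rw [Real.sq_sqrt h]; ring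
    push_cast
    rw [this]
    congr 1
    · ring
    · linear_combination (-(t : ℂ) ^ 2) * I_sq

lemma semi {ε : ℝ} (hε : 0 < ε) : ∫ t : ℝ, 2 * √(ε ^ 2 - t ^ 2) / ε ^ 2 = Real.pi := by
  have h1 : ∫ t : ℝ, √(1 - t ^ 2) = Real.pi / 2 := by
    rw [← integral_sqrt_one_sub_sq, intervalIntegral.integral_of_le (by norm_num),
      setIntegral_eq_integral_of_forall_compl_eq_zero]
    intro t ht
    rw [mem_Ioc, not_and_or, not_lt, not_le] at ht
    exact Real.sqrt_eq_zero_of_nonpos (by rcases ht with h | h <;> nlinarith)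
  have h2 := Measure.integral_comp_div (fun t : ℝ => √(1 - t ^ 2)) ε
  have h3 : ∀ t : ℝ, 2 * √(ε ^ 2 - t ^ 2) / ε ^ 2 = 2 / ε * √(1 - (t / ε) ^ 2) := fun t => by
    rw [show ε ^ 2 - t ^ 2 = ε ^ 2 * (1 - (t / ε) ^ 2) by field_simp,
      Real.sqrt_mul (sq_nonneg _), Real.sqrt_sq hε.le]
    field_simp
  simp only [h3]
  rw [integral_const_mul, h2, h1, abs_of_pos hε, smul_eq_mul]
  field_simp

noncomputable def g (t : ℝ) : ℂ := (Ioo (0 : ℝ) 1).indicator 1 t

lemma gm : Measurable g := measurable_one.indicator measurableSet_Ioo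

lemma gi : Integrable fun t => ‖g t‖ :=
  ((integrableOn_const (by simp)).integrable_indicator measurableSet_Ioo).norm

lemma pv (z : ℂ) {ε : ℝ} (hε : 0 < ε) :
    IntegrableOn (fun ζ => g ζ.im / (z - ζ) ^ 2) {ζ | ε < ‖z - ζ‖} ∧
    ((∀ t, |t| < ε → g (z.im - t) = g z.im) →
      ∫ ζ in {ζ | ε < ‖z - ζ‖}, g ζ.im / (z - ζ) ^ 2 = Real.pi * g z.im) := by
  have ms : MeasurableSet {ζ : ℂ | ε < ‖z - ζ‖} :=
    (isOpen_lt continuous_const (by fun_prop)).measurableSet
  set F : ℂ → ℂ := {ζ : ℂ | ε < ‖z - ζ‖}.indicator fun ζ => g ζ.im / (z - ζ) ^ 2 with hF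
  have Fm : Measurable F := ((gm.comp measurable_im).div (by fun_prop)).indicator ms
  set G : ℝ × ℝ → ℂ := fun p => F (z - measurableEquivRealProd.symm p) with hG
  have Ge : ∀ s t : ℝ, G (s, t) = g (z.im - t) *
      {s : ℝ | ε < ‖(s : ℂ) + t * I‖}.indicator (fun s => 1 / ((s : ℂ) + t * I) ^ 2) s :=
    fun s t => by
      have e : measurableEquivRealProd.symm (s, t) = s + t * I := by
        apply Complex.ext <;> simp
      simp only [hG, hF, e, indicator, mem_ofPred_eq, sub_sub_cancel]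
      split_ifs <;> simp [div_eq_mul_inv]
  have Gi : Integrable G (volume.prod volume) := by
    refine ((dom hε).mul_prod (gi.comp_sub_left z.im)).mono'
      (Fm.comp (by fun_prop)).aestronglyMeasurable (.of_forall fun ⟨s, t⟩ => ?_)
    rw [Ge, norm_mul, mul_comm]
    refine mul_le_mul_of_nonneg_right ?_ (norm_nonneg _)
    by_cases h : ε < ‖(s : ℂ) + t * I‖
    · rw [indicator_of_mem (by exact h)]
      exact bd hε h.le
    · rw [indicator_of_notMem (by exact h), norm_zero]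
      positivity
  have mp : MeasurePreserving (fun p => z - measurableEquivRealProd.symm p)
      (volume.prod volume) volume :=
    (Measure.measurePreserving_sub_left volume z).comp volume_preserving_equiv_real_prod.symm
  have me : MeasurableEmbedding (fun p => z - measurableEquivRealProd.symm p) :=
    (MeasurableEquiv.subLeft z).measurableEmbedding.comp
      measurableEquivRealProd.symm.measurableEmbedding
  refine ⟨(integrable_indicator_iff ms).1 ((mp.integrable_comp_emb me).1 Gi), fun h => ?_⟩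
  rw [← integral_indicator ms, ← mp.integral_comp me]
  refine (integral_prod_symm G Gi).trans ?_
  rw [← semi hε, ← integral_complex_ofReal, ← integral_mul_const]
  refine integral_congr_ae ?_
  filter_upwards [compl_mem_ae_iff.2 (measure_singleton (0 : ℝ))] with t ht
  simp only [Ge]
  rw [integral_const_mul, integral_indicator
    (isOpen_lt continuous_const (by fun_prop)).measurableSet, inner hε ht, mul_comm]
  rcases lt_or_ge |t| ε with k | k
  · rw [h t k]
  · rw [Real.sqrt_eq_zero_of_nonpos (by nlinarith [sq_abs t])]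
    simp

end Pool.Agent.H.MP_c984ee_an
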