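import Mathlib

open MeasureTheory Set Filter Topology Metric

namespace Pool.Agent.H.MP_c984ee_an

noncomputable def w (z : ℂ) : ℝ := (1 + ‖z‖) ^ (-(3 / 2 : ℝ))

lemma w0 (z : ℂ) : 0 < w z := Real.rpow_pos_of_pos (by positivity) _

lemma wc : Continuous w :=
  Continuous.rpow_const (by fun_prop) fun z => Or.inl (by positivity)

lemma wball {R : ℝ} (hR : 0 < R) :
    ∫ z in ball 0 R, w z ≤ 4 * Real.pi * (1 + R) ^ (1 / 2 : ℝ) := by
  have h := integral_fun_norm_addHaar (volume : Measure ℂ)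
    ((Iio R).indicator fun y : ℝ => (1 + y) ^ (-(3 / 2 : ℝ)))
  have e : (fun z : ℂ => (Iio R).indicator (fun y : ℝ => (1 + y) ^ (-(3 / 2 : ℝ))) ‖z‖) =
      (ball 0 R).indicator w := by
    ext z
    simp [indicator, w]
  rw [e, integral_indicator measurableSet_ball] at h
  simp only [Complex.finrank_real_complex, Nat.add_one_sub_one, pow_one, ← indicator_smul_apply _ (fun y : ℝ => y),
    integral_indicator measurableSet_Iio, Measure.restrict_restrict measurableSet_Iio,
    Iio_inter_Ioi] at h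
  have c : ∀ a : ℝ, ContinuousOn (fun y : ℝ => (1 + y) ^ a) (Icc 0 R) := fun a =>
    ContinuousOn.rpow_const (by fun_prop) fun y hy => Or.inl (by linarith [hy.1])
  have h2 : ∫ y in Ioo 0 R, y • (1 + y) ^ (-(3 / 2 : ℝ)) ≤
      ∫ y in Ioo 0 R, (1 + y) ^ (-(1 / 2 : ℝ)) := by
    refine setIntegral_mono_on ((continuousOn_id.smul (c _)).integrableOn_Icc.mono_set
      Ioo_subset_Icc_self) ((c _).integrableOn_Icc.mono_set Ioo_subset_Icc_self)
      measurableSet_Ioo fun y hy => ?_
    have y0 : 0 < 1 + y := by linarith [hy.1]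
    rw [show -(1 / 2 : ℝ) = 1 + -(3 / 2) by norm_num, Real.rpow_add y0, Real.rpow_one]
    exact mul_le_mul_of_nonneg_right (by linarith) (by positivity)
  have h3 : ∫ y in Ioo 0 R, (1 + y) ^ (-(1 / 2 : ℝ)) ≤ 2 * (1 + R) ^ (1 / 2 : ℝ) := by
    rw [← integral_Ioc_eq_integral_Ioo, ← intervalIntegral.integral_of_le hR.le,
      intervalIntegral.integral_comp_add_left (fun y : ℝ => y ^ (-(1 / 2 : ℝ))),
      integral_rpow (Or.inl (by norm_num))]
    norm_num
    linarith
  rw [h, Measure.real, Complex.volume_ball]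
  simp only [nsmul_eq_mul, smul_eq_mul] at h2 ⊢
  have := mul_le_mul_of_nonneg_left (h2.trans h3) Real.pi_pos.le
  simp only [ENNReal.ofReal_one, one_pow, one_mul, ENNReal.coe_toReal, NNReal.coe_real_pi,
    Nat.cast_ofNat]
  linarith

lemma avg {Q : Set ℂ} {a c : ℂ} {r : ℝ} (hr : 0 < r) (h1 : ball c (r / 4) ⊆ Q)
    (h2 : Q ⊆ ball a r) : ⨍ z in Q, w z ≤ 576 * (1 + ‖a‖ + r) ^ (-(3 / 2 : ℝ)) := by
  have fin : volume Q < ⊤ := (measure_mono h2).trans_lt measure_ball_lt_top
  have v : Real.pi * (r / 4) ^ 2 ≤ volume.real Q := by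
    refine le_trans (le_of_eq ?_) (measureReal_mono h1 fin.ne)
    rw [Measure.real, Complex.volume_ball]
    simp [ENNReal.toReal_ofReal (show 0 ≤ r / 4 by positivity), mul_comm]
  have v0 : 0 < volume.real Q := lt_of_lt_of_le (by positivity) v
  have M0 : 0 < 1 + ‖a‖ + r := by positivity
  rw [setAverage_eq, smul_eq_mul, inv_mul_le_iff₀ v0]
  rcases le_total r ((1 + ‖a‖) / 2) with k | k
  · refine (Real.le_norm_self _).trans ((norm_setIntegral_le_of_norm_le_const fin fun z hz => ?_).trans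
      (mul_comm _ _).le)
    have b := mem_ball_iff_norm.1 (h2 hz)
    have b2 := norm_sub_norm_le a z
    rw [norm_sub_rev] at b2
    rw [Real.norm_of_nonneg (w0 z).le, w]
    refine (Real.rpow_le_rpow_of_nonpos (x := (1 + ‖a‖ + r) / 4) (by positivity) (by linarith)
      (by norm_num)).trans ?_
    rw [Real.div_rpow M0.le (by norm_num), div_eq_inv_mul, ← Real.rpow_neg (by norm_num), neg_neg]
    refine mul_le_mul_of_nonneg_right ((Real.rpow_le_rpow_of_exponent_le (by norm_num)
      (show (3 / 2 : ℝ) ≤ 2 by norm_num)).trans (by norm_num)) (by positivity)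
  · have s : Q ⊆ ball 0 (‖a‖ + r) := fun z hz => by
      have b := mem_ball_iff_norm.1 (h2 hz)
      rw [mem_ball_zero_iff]
      linarith [norm_sub_norm_le z a]
    have b := (setIntegral_mono_set ((wc.continuousOn.integrableOn_compact
      (isCompact_closedBall 0 (‖a‖ + r))).mono_set ball_subset_closedBall)
      (.of_forall fun z => (w0 z).le) s.eventuallyLE).trans (wball (by positivity))
    refine b.trans (le_trans ?_ (mul_le_mul_of_nonneg_right v (by positivity)))
    rw [← add_assoc, show (1 / 2 : ℝ) = 2 + -(3 / 2) by norm_num, Real.rpow_add M0, Real.rpow_two]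
    have : (1 + ‖a‖ + r) ^ 2 ≤ (3 * r) ^ 2 := by gcongr; linarith
    have p := mul_pos Real.pi_pos (Real.rpow_pos_of_pos M0 (-(3 / 2 : ℝ)))
    nlinarith

lemma avg2 {Q : Set ℂ} {a : ℂ} {r p : ℝ} (hr : 0 < r) (hp : 1 < p) (h2 : Q ⊆ ball a r) :
    (⨍ z in Q, w z ^ (-1 / (p - 1))) ^ (p - 1) ≤ (1 + ‖a‖ + r) ^ (3 / 2 : ℝ) := by
  have fin : volume Q < ⊤ := (measure_mono h2).trans_lt measure_ball_lt_top
  have M0 : 0 < 1 + ‖a‖ + r := by positivity
  have p0 : 0 < p - 1 := by linarith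
  have k : ⨍ z in Q, w z ^ (-1 / (p - 1)) ≤ ((1 + ‖a‖ + r) ^ (3 / 2 : ℝ)) ^ (1 / (p - 1)) := by
    rw [setAverage_eq, smul_eq_mul]
    refine inv_mul_le_of_le_mul₀ measureReal_nonneg (by positivity) ((Real.le_norm_self _).trans
      ((norm_setIntegral_le_of_norm_le_const fin fun z hz => ?_).trans (mul_comm _ _).le))
    have b := mem_ball_iff_norm.1 (h2 hz)
    rw [Real.norm_of_nonneg (Real.rpow_nonneg (w0 z).le _), w, Real.rpow_neg (by positivity),
      neg_div, Real.rpow_neg (by positivity), Real.inv_rpow (by positivity), inv_inv]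
    have : 1 + ‖z‖ ≤ 1 + ‖a‖ + r := by linarith [norm_sub_norm_le z a]
    gcongr
  refine (Real.rpow_le_rpow (integral_nonneg fun z => Real.rpow_nonneg (w0 z).le _) k
    p0.le).trans (le_of_eq ?_)
  rw [← Real.rpow_mul (by positivity), one_div_mul_cancel p0.ne', Real.rpow_one]

end Pool.Agent.H.MP_c984ee_an
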